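import Pool.Agent.H179R3.IntFlow

set_option autoImplicit false

namespace Pool.Agent.Results.MP_a2b267_co.OddCuts

/-!
Circular flow numbers of multigraphs without small odd edge cuts. With `t = 4`: every
8-edge-connected graph has circular flow number less than `18/7`. With `t = 5`: every
10-edge-connected graph has circular flow number less than `22/9`, so it has a circular `5/2`-flow.

A multigraph is given by its finite vertex type `V`, its finite edge type `E` and the two ends
`s d : E → V` of the edges in a reference orientation (parallel edges and loops are allowed).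
-/

/-- The edge cut of the vertex set `X`: the edges with exactly one end in `X`. -/
def cut {V E : Type} [DecidableEq V] [Fintype E] (s d : E → V) (X : Finset V) : Finset E :=
  Finset.univ.filter (fun e => (s e ∈ X ∧ d e ∉ X) ∨ (s e ∉ X ∧ d e ∈ X))

/-- `f` is a circular `r`-flow (`r` real): all absolute values lie in `[1, r - 1]` and at every
vertex the outgoing sum equals the incoming sum. -/
def IsCircularFlow {V E : Type} [DecidableEq V] [Fintype E] (s d : E → V) (r : ℝ) (f : E → ℝ) :
    Prop :=
  (∀ e, 1 ≤ |f e| ∧ |f e| ≤ r - 1) ∧
    ∀ v : V, ∑ e ∈ Finset.univ.filter (fun e => s e = v), f e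
      = ∑ e ∈ Finset.univ.filter (fun e => d e = v), f e

/-- Let `t ≥ 1`. A finite multigraph in which every edge cut with an odd number of edges has at
least `2t+1` edges (for instance a `2t`-edge-connected one) has a circular `r`-flow for some real
`r < 2 + 4/(2t-1)`. -/
theorem result (t : ℕ) (ht : 1 ≤ t) (V E : Type) [Fintype V] [DecidableEq V] [Fintype E]
    (s d : E → V) (h : ∀ X : Finset V, Odd (cut s d X).card → 2 * t + 1 ≤ (cut s d X).card) :
    ∃ r : ℝ, 2 ≤ r ∧ r < 2 + 4 / (2 * (t : ℝ) - 1) ∧ ∃ f : E → ℝ, IsCircularFlow s d r f := by
  classical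
  exact Pool.Agent.H179R3.exists_flow_lt t ht s d h

end Pool.Agent.Results.MP_a2b267_co.OddCuts
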